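import Pool.Agent.J6H31.GA.StmM
import Pool.Agent.J6H31.GA.Weak

/-!
# Semisimplicity from the reductions of the characteristic polynomials

The arguments of `J6H31/GA/Semi` and `J6H31/GA/Weak`, for arbitrary reductions.
-/

set_option autoImplicit false
set_option linter.all false

namespace Pool.Agent.J6H24.SS

open Finset Polynomial Module Module.End Pool.Agent.W528.HS Pool.Agent.J6H31.AC Pool.Agent.J6H31.GA

variable {G : Type} [CommGroup G] [Fintype G] {E : Type} [Field E] [CharZero E]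
  [IsAlgClosed E] {V : Type} [AddCommGroup V] [Module E V] [FiniteDimensional E V]
  {Φ : Module.End E V} {ρ : G →* Module.End E V}

/-- The dimensions of the generalized eigenspaces. -/
theorem dim_le {p s d q : ℕ} [hfact : Fact p.Prime] (hq : ¬ p ∣ q) (hG : ∀ g : G, g ^ p ^ s = 1)
    (hc : ∀ g, Commute Φ (ρ g)) {R : (G →* E) → (ZMod p)[X]}
    (hred : ∀ χ : G →* E, χ ≠ 1 → Reduces (part hc χ) p (R χ)) (B : LinearMap.BilinForm E V)
    (hB : B.Nondegenerate) (hBG : ∀ g x y, B (ρ g x) (ρ g y) = B x y)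
    (hBΦ : ∀ x y, B (Φ x) (Φ y) = (q : E) ^ d * B x y) {χ : G →* E} (hχ1 : χ ≠ 1) {e : ℕ}
    (he : MultLE p (R χ) e) (α : E) :
    finrank E (Φ.maxGenEigenspace α ⊓ eig ρ χ : Submodule E V) ≤ e := by
  classical
  have hp : p.Prime := Fact.out
  have hq0 : (q : E) ^ d ≠ 0 := by
    refine pow_ne_zero _ ?_
    intro h0
    have h1 : q = 0 := by exact_mod_cast h0
    rw [h1] at hq
    exact hq (dvd_zero p)
  rw [dim_part hc, LinearMap.finrank_maxGenEigenspace_eq, ← count_roots]
  by_cases hα : α ∈ (part hc χ).charpoly.roots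
  swap
  · rw [Multiset.count_eq_zero_of_notMem hα]
    exact Nat.zero_le _
  -- the dual character
  let χ' : G →* E :=
    { toFun := fun g => χ g⁻¹
      map_one' := by rw [inv_one, map_one]
      map_mul' := fun a b => by rw [mul_inv, map_mul] }
  have hχ' : ∀ g, χ g * χ' g = 1 := fun g => by
    change χ g * χ g⁻¹ = 1
    rw [← map_mul, mul_inv_cancel, map_one]
  have hχ'1 : χ' ≠ 1 := by
    intro h0
    apply hχ1
    ext g
    have h1 := hχ' g
    rw [h0, MonoidHom.one_apply, mul_one] at h1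
    rw [h1, MonoidHom.one_apply]
  have hroot := (mem_roots (LinearMap.charpoly_monic (part hc χ)).ne_zero).1 hα
  obtain ⟨β, hαβ, hβ⟩ := dual_eigen hc B hB hBG hq0 hBΦ χ χ' hχ' hroot
  have hαi := (hred χ hχ1).1 α hα
  have hβi := (hred χ' hχ'1).1 β
    ((mem_roots (LinearMap.charpoly_monic (part hc χ')).ne_zero).2 hβ)
  obtain ⟨k, _, _, ⟨θ⟩⟩ := Pool.Agent.W804.HS.RD.main E p hp
  letI : Algebra (ZMod p) k := ZMod.algebra k p
  have hθ : θ ⟨α, hαi⟩ ≠ 0 := by
    intro h0
    have h1 : (⟨α, hαi⟩ : Oint E) * ⟨β, hβi⟩ = ((q : ℕ) : Oint E) ^ d := by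
      apply Subtype.ext
      push_cast
      exact hαβ
    have h2 := congrArg θ h1
    rw [map_mul, h0, zero_mul, map_pow, map_natCast] at h2
    have h3 : ((q : ℕ) : k) = 0 := by
      by_contra hne
      exact pow_ne_zero d hne h2.symm
    rw [CharP.cast_eq_zero_iff k p] at h3
    exact hq h3
  obtain ⟨A', hA'⟩ := lift_mult (hred χ hχ1).1
  have h1 := count_le_mult θ A' (((hred χ hχ1).2 k θ A' hA')) ⟨α, hαi⟩ hθ
  rw [hA'] at h1
  exact h1.trans (he k _)

theorem card_le_red {p : ℕ} [Fact p.Prime] {Ψ : Module.End E V} {R : (ZMod p)[X]}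
    (hr : Reduces Ψ p R) (k : Type) [Field k] [DecidableEq k] [Algebra (ZMod p) k]
    (θ : Oint E →+* k) (A' : Multiset (Oint E)) (hA' : A'.map Subtype.val = Ψ.charpoly.roots)
    {a : ZMod p} (ha : a ≠ 0) :
    ((A'.filter fun x => θ x = algebraMap (ZMod p) k a).card : ℤ) ≤
      (R.rootMultiplicity a⁻¹ : ℤ) := by
  have h2 := card_filter_le θ A' (hr.2 k θ A' hA') (u := algebraMap (ZMod p) k a)
    ((_root_.map_ne_zero _).2 ha)
  rw [← map_inv₀, ← eq_rootMultiplicity_map (algebraMap (ZMod p) k).injective] at h2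
  exact_mod_cast h2

/-- The multiplicity of the eigenvalue `q ^ m`. -/
theorem gen_bound {p s d q m : ℕ} [hfact : Fact p.Prime] (hq : ¬ p ∣ q)
    (hG : ∀ g : G, g ^ p ^ s = 1) (hd : d = 2 * m) (hc : ∀ g, Commute Φ (ρ g)) {R : (G →* E) → (ZMod p)[X]}
    (hred : ∀ χ : G →* E, χ ≠ 1 → Reduces (part hc χ) p (R χ)) (B : LinearMap.BilinForm E V)
    (hB : B.Nondegenerate) (hBG : ∀ g x y, B (ρ g x) (ρ g y) = B x y)
    (hBΦ : ∀ x y, B (Φ x) (Φ y) = (q : E) ^ d * B x y) {χ : G →* E} (hχ1 : χ ≠ 1) {α : E}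
    (hα : α = (q : E) ^ m) :
    ((finrank E (Φ.maxGenEigenspace α ⊓ eig ρ χ : Submodule E V) + detTerm Φ ρ α p χ : ℕ) : ℤ)
      ≤ ((R χ).rootMultiplicity (((q : ZMod p) ^ m)⁻¹) : ℤ) := by
  classical
  have hp : p.Prime := Fact.out
  have hq0 : (q : E) ≠ 0 := by
    intro h0
    have h1 : q = 0 := by exact_mod_cast h0
    rw [h1] at hq
    exact hq (dvd_zero p)
  have hα0 : α ≠ 0 := by rw [hα]; exact pow_ne_zero _ hq0
  have hqp : (q : ZMod p) ^ m ≠ 0 := by
    refine pow_ne_zero _ ?_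
    rw [Ne, ZMod.natCast_eq_zero_iff]
    exact hq
  have heven : Even d := ⟨m, by omega⟩
  obtain ⟨k, _, _, ⟨θ⟩⟩ := Pool.Agent.W804.HS.RD.main E p hp
  letI : Algebra (ZMod p) k := ZMod.algebra k p
  set Ψ := part hc χ with hΨ
  have hint := (hred χ hχ1).1
  obtain ⟨A', hA'⟩ := lift_mult hint
  have hmain := card_le_red (hred χ hχ1) k θ A' hA' hqp
  obtain ⟨hαi, hθα⟩ := theta_pow θ (q := q) (m := m) hα
  have hqk : algebraMap (ZMod p) k ((q : ZMod p) ^ m) = ((q : ℕ) : k) ^ m := by
    rw [map_pow, map_natCast]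
  have hcount : finrank E (Φ.maxGenEigenspace α ⊓ eig ρ χ : Submodule E V)
      = A'.count ⟨α, hαi⟩ := by
    rw [dim_part hc, LinearMap.finrank_maxGenEigenspace_eq, ← count_roots, ← hA']
    exact Multiset.count_map_eq_count' Subtype.val A' Subtype.val_injective ⟨α, hαi⟩
  refine le_trans ?_ hmain
  rw [hcount]
  refine Int.ofNat_le.2 ?_
  by_cases hsign : p = 2 ∧ MinusDet Φ ρ α χ
  · rw [detTerm, if_pos hsign]
    obtain ⟨rfl, hχ2, _, hdet⟩ := hsign
    have hroot : Ψ.charpoly.IsRoot (-α) :=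
      neg_eigen (B.restrict (eig ρ χ)) (form_part B hB hBG χ hχ2) Ψ hα0 (fun x y => by
        change B (Φ x.1) (Φ y.1) = _
        rw [hBΦ, hα, hd, ← pow_mul, mul_comm m 2]
        rfl) hdet
    have hβi : -α ∈ Oint E := (Oint E).neg_mem hαi
    have hθβ : θ ⟨-α, hβi⟩ = algebraMap (ZMod 2) k ((q : ZMod 2) ^ m) := by
      have h1 : (⟨-α, hβi⟩ : Oint E) = -⟨α, hαi⟩ := rfl
      rw [h1, map_neg, hθα, hqk, CharTwo.neg_eq]
    have hne : (⟨α, hαi⟩ : Oint E) ≠ ⟨-α, hβi⟩ := by
      intro h0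
      have h1 : α = -α := congrArg Subtype.val h0
      have h2 : (2 : E) * α = 0 := by linear_combination h1
      exact (mul_ne_zero two_ne_zero hα0) h2
    have h1 := sum_count_le θ A' (u := algebraMap (ZMod 2) k ((q : ZMod 2) ^ m))
      {⟨α, hαi⟩, ⟨-α, hβi⟩} (by
        intro x hx
        rw [Finset.mem_insert, Finset.mem_singleton] at hx
        rcases hx with rfl | rfl
        · rw [hθα, hqk]
        · exact hθβ)
    rw [Finset.sum_pair hne] at h1
    have h2 : 0 < A'.count ⟨-α, hβi⟩ := by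
      have h3 : A'.count ⟨-α, hβi⟩ = (A'.map Subtype.val).count (-α) :=
        (Multiset.count_map_eq_count' Subtype.val A' Subtype.val_injective ⟨-α, hβi⟩).symm
      rw [h3, hA', Multiset.count_pos, mem_roots (LinearMap.charpoly_monic _).ne_zero]
      exact hroot
    omega
  · rw [detTerm, if_neg hsign, add_zero]
    have h1 := sum_count_le θ A' (u := algebraMap (ZMod p) k ((q : ZMod p) ^ m))
      {⟨α, hαi⟩} (by
        intro x hx
        rw [Finset.mem_singleton] at hx
        rw [hx, hθα, hqk])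
    rwa [Finset.sum_singleton] at h1

/-- Semisimplicity on the part of `χ`, given algebraic classes. -/
theorem full_part {p s d q m : ℕ} [hfact : Fact p.Prime] (hq : ¬ p ∣ q)
    (hG : ∀ g : G, g ^ p ^ s = 1) (hd : d = 2 * m) (hc : ∀ g, Commute Φ (ρ g)) {R : (G →* E) → (ZMod p)[X]}
    (hred : ∀ χ : G →* E, χ ≠ 1 → Reduces (part hc χ) p (R χ)) (B : LinearMap.BilinForm E V)
    (hB : B.Nondegenerate) (hs : ∀ x y, B x y = B y x) (hBG : ∀ g x y, B (ρ g x) (ρ g y) = B x y)
    (hBΦ : ∀ x y, B (Φ x) (Φ y) = (q : E) ^ d * B x y) {χ : G →* E} (hχ1 : χ ≠ 1) {α : E}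
    (hα : α = (q : E) ^ m) {N : Submodule E V} (hN : IsAlgebraic B Φ ρ α N) {j : ℕ}
    (hR : AlmostSquarefree p ((q : ZMod p) ^ m) j (R χ))
    (hj : j ≤ finrank E (N ⊓ eig ρ χ : Submodule E V) + 1 ∨
      (∀ g, χ g ^ 2 = 1) ∧ j ≤ finrank E (N ⊓ eig ρ χ : Submodule E V) + 2) (γ : E) :
    (part hc χ).maxGenEigenspace γ ≤ (part hc χ).eigenspace γ := by
  classical
  have hp : p.Prime := Fact.out
  have hq0 : (q : E) ≠ 0 := by
    intro h0
    have h1 : q = 0 := by exact_mod_cast h0
    rw [h1] at hq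
    exact hq (dvd_zero p)
  have hα0 : α ≠ 0 := by rw [hα]; exact pow_ne_zero _ hq0
  have hα2 : α ^ 2 = (q : E) ^ d := by rw [hα, hd, ← pow_mul, mul_comm]
  have hqp : (q : ZMod p) ^ m ≠ 0 := by
    refine pow_ne_zero _ ?_
    rw [Ne, ZMod.natCast_eq_zero_iff]
    exact hq
  have heven : Even d := ⟨m, by omega⟩
  obtain ⟨k, _, _, ⟨θ⟩⟩ := Pool.Agent.W804.HS.RD.main E p hp
  letI : Algebra (ZMod p) k := ZMod.algebra k p
  set Ψ := part hc χ with hΨ
  have hint := (hred χ hχ1).1
  obtain ⟨A', hA'⟩ := lift_mult hint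
  have hrd := ((hred χ hχ1).2 k θ A' hA')
  obtain ⟨hαi, hθα⟩ := theta_pow θ (q := q) (m := m) hα
  have hqk : algebraMap (ZMod p) k ((q : ZMod p) ^ m) = ((q : ℕ) : k) ^ m := by
    rw [map_pow, map_natCast]
  set t : k := algebraMap (ZMod p) k ((q : ZMod p) ^ m) with ht
  have ht0 : t ≠ 0 := (_root_.map_ne_zero _).2 hqp
  have hθα' : θ ⟨α, hαi⟩ = t := by rw [hθα, hqk]
  have hcnt : ∀ x : Oint E, A'.count x = Ψ.charpoly.roots.count x.1 := by
    intro x
    rw [← hA']
    exact (Multiset.count_map_eq_count' Subtype.val A' Subtype.val_injective x).symm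
  have hcount : finrank E (Φ.maxGenEigenspace α ⊓ eig ρ χ : Submodule E V)
      = A'.count ⟨α, hαi⟩ := by
    rw [dim_part hc, LinearMap.finrank_maxGenEigenspace_eq, ← count_roots, hcnt]
  have hNle : finrank E (N ⊓ eig ρ χ : Submodule E V) ≤ A'.count ⟨α, hαi⟩ := by
    rw [← hcount]
    refine Submodule.finrank_mono (inf_le_inf_right _ fun y hy => ?_)
    exact ((Φ.genEigenspace α).mono le_top) (mem_eigenspace_iff.2 (hN.eigen y hy))
  have hmult := hR.mult_le hqp k t⁻¹
  rw [if_pos rfl] at hmult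
  have hfilter := (card_filter_le θ A' hrd ht0).trans hmult
  by_cases hγ : γ ∈ Ψ.charpoly.roots
  swap
  · refine gen_le_of_one Ψ γ ?_
    rw [LinearMap.finrank_maxGenEigenspace_eq, ← count_roots, Multiset.count_eq_zero_of_notMem hγ]
    exact Nat.zero_le _
  have hγi := hint γ hγ
  have hdimγ : finrank E (Ψ.maxGenEigenspace γ) = A'.count ⟨γ, hγi⟩ := by
    rw [LinearMap.finrank_maxGenEigenspace_eq, ← count_roots, hcnt]
  have hdual : ∀ χ' : G →* E, (∀ g, χ g * χ' g = 1) → ∃ β : E, γ * β = (q : E) ^ d ∧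
      (part hc χ').charpoly.IsRoot β := fun χ' hχ' =>
    dual_eigen hc B hB hBG (pow_ne_zero _ hq0) hBΦ χ χ' hχ'
      ((mem_roots (LinearMap.charpoly_monic Ψ).ne_zero).1 hγ)
  by_cases hγα : γ = α
  · -- the eigenvalue `q ^ m`
    have h1 := jordan_bound B hB hs hα0 hc hBG (fun x y => by rw [hBΦ, hα2]) hN χ
      (e := 1) le_rfl (by
        rw [hcount]
        have h2 := sum_count_le θ A' (u := t) {⟨α, hαi⟩} (by
          intro x hx
          rw [Finset.mem_singleton] at hx
          rw [hx, hθα'])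
        rw [Finset.sum_singleton] at h2
        rcases hj with h3 | ⟨h3, h4⟩
        · left
          omega
        · right
          exact ⟨h3, odd_one, by omega⟩)
    intro x hx
    rw [mem_eigenspace_iff]
    have hx' : x.1 ∈ Φ.maxGenEigenspace α ⊓ eig ρ χ := by
      refine ⟨?_, x.2⟩
      have h2 : Ψ.maxGenEigenspace γ
          = (Φ.maxGenEigenspace γ).comap (eig ρ χ).subtype :=
        Module.End.genEigenspace_restrict Φ (eig ρ χ) ⊤ γ (mapsTo_eig hc χ)
      rw [h2, hγα] at hx
      exact hx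
    have h2 := h1 x.1 hx'
    rw [pow_one] at h2
    apply Subtype.ext
    rw [hγα]
    exact sub_eq_zero.1 h2
  by_cases hθγ : θ ⟨γ, hγi⟩ = t
  swap
  · -- the other residue classes
    refine gen_le_of_one Ψ γ ?_
    have hθ0 : θ ⟨γ, hγi⟩ ≠ 0 := by
      -- a unit
      let χ' : G →* E :=
        { toFun := fun g => χ g⁻¹
          map_one' := by rw [inv_one, map_one]
          map_mul' := fun a b => by rw [mul_inv, map_mul] }
      have hχ' : ∀ g, χ g * χ' g = 1 := fun g => by
        change χ g * χ g⁻¹ = 1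
        rw [← map_mul, mul_inv_cancel, map_one]
      have hχ'1 : χ' ≠ 1 := by
        intro h0
        apply hχ1
        ext g
        have h1 := hχ' g
        rw [h0, MonoidHom.one_apply, mul_one] at h1
        rw [h1, MonoidHom.one_apply]
      obtain ⟨β, hγβ, hβ⟩ := hdual χ' hχ'
      have hβi := (hred χ' hχ'1).1 β
        ((mem_roots (LinearMap.charpoly_monic (part hc χ')).ne_zero).2 hβ)
      intro h0
      have h1 : (⟨γ, hγi⟩ : Oint E) * ⟨β, hβi⟩ = ((q : ℕ) : Oint E) ^ d := by
        apply Subtype.ext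
        push_cast
        exact hγβ
      have h2 := congrArg θ h1
      rw [map_mul, h0, zero_mul, map_pow, map_natCast] at h2
      have h3 : ((q : ℕ) : k) = 0 := by
        by_contra hne
        exact pow_ne_zero d hne h2.symm
      rw [CharP.cast_eq_zero_iff k p] at h3
      exact hq h3
    have h1 := card_filter_le θ A' hrd hθ0
    have h2 := hR.mult_le hqp k (θ ⟨γ, hγi⟩)⁻¹
    rw [if_neg (fun h0 => hθγ (inv_injective h0))] at h2
    have h3 := sum_count_le θ A' (u := θ ⟨γ, hγi⟩) {⟨γ, hγi⟩} (by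
      intro x hx
      rw [Finset.mem_singleton] at hx
      rw [hx])
    rw [Finset.sum_singleton] at h3
    rw [hdimγ]
    omega
  · have hne1 : (⟨γ, hγi⟩ : Oint E) ≠ ⟨α, hαi⟩ := fun h0 => hγα (congrArg Subtype.val h0)
    have h1 := sum_count_le θ A' (u := t) {⟨γ, hγi⟩, ⟨α, hαi⟩} (by
      intro x hx
      rw [Finset.mem_insert, Finset.mem_singleton] at hx
      rcases hx with rfl | rfl
      · exact hθγ
      · exact hθα')
    rw [Finset.sum_pair hne1] at h1
    rcases hj with hj | ⟨hχ2, hj⟩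
    · refine gen_le_of_one Ψ γ ?_
      rw [hdimγ]
      omega
    · -- the prime is two
      have hp2 : p = 2 := by
        obtain ⟨g, hg⟩ : ∃ g, χ g ≠ 1 := by
          by_contra hcon
          push Not at hcon
          exact hχ1 (MonoidHom.ext hcon)
        by_contra hne
        have hodd : Odd (p ^ s) := (hp.odd_of_ne_two hne).pow
        obtain ⟨m', hm'⟩ := hodd
        apply hg
        have h1 : χ g ^ p ^ s = 1 := by rw [← map_pow, hG, map_one]
        rw [hm', pow_add, pow_mul, hχ2, one_pow, one_mul, pow_one] at h1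
        exact h1
      have hqk1 : ((q : ℕ) : k) = 1 := by
        have h2 : (q : ZMod p) = 1 := by
          subst hp2
          have h3 : (q : ZMod 2) = ((1 : ℕ) : ZMod 2) := by
            rw [ZMod.natCast_eq_natCast_iff]
            unfold Nat.ModEq
            omega
          rw [h3, Nat.cast_one]
        have h3 := congrArg (algebraMap (ZMod p) k) h2
        rwa [map_natCast, map_one] at h3
      have ht1 : t = 1 := by rw [hqk, hqk1, one_pow]
      by_cases hγγ : γ * γ = (q : E) ^ d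
      · refine ortho_semisimple (B.restrict (eig ρ χ)) (form_part B hB hBG χ hχ2)
          (fun x y => hs x.1 y.1) Ψ (pow_ne_zero _ hq0)
          (fun x y => hBΦ x.1 y.1) hγγ ⊥ bot_le (fun x hx _ => (Submodule.mem_bot E).1 hx) ?_
        rw [finrank_bot, zero_add, hdimγ]
        omega
      · have hχχ : ∀ g, χ g * χ g = 1 := fun g => by rw [← pow_two, hχ2]
        obtain ⟨β, hγβ, hβ⟩ := hdual χ hχχ
        have hβr := (mem_roots (LinearMap.charpoly_monic Ψ).ne_zero).2 hβ
        have hβi := hint β hβr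
        have hθβ : θ ⟨β, hβi⟩ = t := by
          have h2 : (⟨γ, hγi⟩ : Oint E) * ⟨β, hβi⟩ = ((q : ℕ) : Oint E) ^ d := by
            apply Subtype.ext
            push_cast
            exact hγβ
          have h3 := congrArg θ h2
          rw [map_mul, hθγ, map_pow, map_natCast, hqk1, one_pow, ht1, one_mul] at h3
          rw [h3, ht1]
        have hne2 : (⟨γ, hγi⟩ : Oint E) ≠ ⟨β, hβi⟩ := by
          intro h0
          apply hγγ
          have h3 : γ = β := congrArg Subtype.val h0
          rw [← h3] at hγβ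
          exact hγβ
        have hne3 : (⟨β, hβi⟩ : Oint E) ≠ ⟨α, hαi⟩ := by
          intro h0
          have h3 : β = α := congrArg Subtype.val h0
          apply hγα
          rw [h3, ← hα2, pow_two] at hγβ
          exact mul_right_cancel₀ hα0 hγβ
        have h2 := sum_count_le θ A' (u := t) {⟨γ, hγi⟩, ⟨β, hβi⟩, ⟨α, hαi⟩} (by
          intro x hx
          rw [Finset.mem_insert, Finset.mem_insert, Finset.mem_singleton] at hx
          rcases hx with rfl | rfl | rfl
          · exact hθγ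
          · exact hθβ
          · exact hθα')
        rw [Finset.sum_insert (by
          rw [Finset.mem_insert, Finset.mem_singleton]
          rintro (h3 | h3)
          · exact hne2 h3
          · exact hne1 h3), Finset.sum_pair hne3] at h2
        have h3 : 0 < A'.count ⟨β, hβi⟩ := by
          rw [hcnt, Multiset.count_pos]
          exact hβr
        refine gen_le_of_one Ψ γ ?_
        rw [hdimγ]
        omega

end Pool.Agent.J6H24.SS
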