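import Pool.Agent.J6H24.SS.Red
import Pool.Agent.J6H24.SS.Core

/-!
# Semisimplicity for abelian coverings and sheaves
-/

set_option autoImplicit false
set_option linter.unusedSectionVars false
set_option linter.unusedVariables false

namespace Pool.Agent.J6H24.SS

open Polynomial Module Pool.Agent.W343.BSD Pool.Agent.J6H31.GA

variable {S : Sheaf} {G : Type} [CommGroup G] {E : Type} [Field E] {C : Cover S G} {m w q : ℕ}

theorem Coh.reduces_iff (H : Coh C m w q E) {p : ℕ} [Fact p.Prime] (χ : G →* E)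
    (R : (ZMod p)[X]) : H.HasReduction p χ R ↔ Reduces (Pool.Agent.J6H31.GA.part H.comm χ) p R :=
  Iff.rfl

theorem Coh.dim_le [Fintype G] [CharZero E] [IsAlgClosed E] {p s : ℕ} [Fact p.Prime]
    (hq : ¬ p ∣ q) (hG : ∀ g : G, g ^ p ^ s = 1) (H : Coh C m w q E) (R : (G →* E) → (ZMod p)[X])
    (hred : ∀ χ : G →* E, χ ≠ 1 → H.HasReduction p χ (R χ)) {χ : G →* E} (hχ : χ ≠ 1) {e : ℕ}
    (he : MultLE p (R χ) e) (α : E) : H.mult χ α ≤ e :=
  Pool.Agent.J6H24.SS.dim_le hq hG H.comm hred H.B H.duality.nondeg H.duality.group H.duality.frob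
    hχ he α

theorem Coh.semisimple [Fintype G] [CharZero E] [IsAlgClosed E] {p s : ℕ} [Fact p.Prime]
    (hq : ¬ p ∣ q) (hG : ∀ g : G, g ^ p ^ s = 1) (H : Coh C m w q E) (A : Submodule E H.V)
    (hA : H.IsAlg A) (R : (G →* E) → (ZMod p)[X])
    (hred : ∀ χ : G →* E, χ ≠ 1 → H.HasReduction p χ (R χ))
    (hM : ∀ χ : G →* E, χ ≠ 1 → H.Mild p A χ (R χ)) (h1 : (H.part 1).IsSemisimple) :
    H.Φ.IsSemisimple := by
  classical
  have hBG := H.duality.group
  refine semisimple_of_parts H.comm fun χ γ => ?_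
  by_cases hχ : χ = 1
  · rw [hχ]
    exact le_of_eq (h1.isFinitelySemisimple.maxGenEigenspace_eq_eigenspace γ)
  · rcases hM χ hχ with h2 | ⟨c, j, R₁, hc, hR1, hR2, hR3, hj2⟩
    · refine gen_le_of_one _ γ ?_
      have h3 := Pool.Agent.J6H24.SS.dim_le hq hG H.comm hred H.B H.duality.nondeg hBG
        H.duality.frob hχ (multLE_of_squarefree h2) γ
      rwa [dim_part H.comm] at h3
    · have hs1 : ((-1 : E)) ^ w = 1 := by
        rw [hc]
        exact (even_two_mul c).neg_one_pow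
      have hs : ∀ x y, H.B x y = H.B y x := fun x y => by
        rw [H.duality.symm x y, hs1, one_mul]
      exact full_part hq hG hc H.comm hred H.B H.duality.nondeg hs hBG H.duality.frob
        hχ rfl (⟨hA.stable, hA.eigen c hc, hA.nondeg⟩ : IsAlgebraic H.B H.Φ H.ρ ((q : E) ^ c) A)
        (⟨R₁, hR1, hR2, hR3⟩ : AlmostSquarefree p ((q : ZMod p) ^ c) j (R χ)) hj2 γ

end Pool.Agent.J6H24.SS
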