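import Pool.Agent.J6H24.SS.StmF
import Pool.Agent.J6H24.SS.Fin1
import Pool.Agent.W313.Hyp.Loc
import Pool.Agent.TH117.HS.Glue

/-!
# Surfaces fibred over curves: the proofs
-/

set_option autoImplicit false
set_option linter.all false

namespace Pool.Agent.J6H24.SS

open Polynomial Module Pool.Agent.W343.BSD Pool.Agent.J6H31.GA
open Pool.Agent.W313.Hyp (eulerProd_subtype)

section euler

variable {S : Sheaf} {G : Type} [CommGroup G] {E : Type} [Field E]

theorem comp_mod {R : Type} [CommRing R] (n : ℕ) {P : R[X]} (hP : P.coeff 0 = 1) :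
    (PowerSeries.X : PowerSeries R) ^ n ∣ ((P.comp (X ^ n) : R[X]) : PowerSeries R) - 1 := by
  refine ⟨((P.divX.comp (X ^ n) : R[X]) : PowerSeries R), ?_⟩
  conv_lhs => rw [← divX_mul_X_add P, hP]
  rw [add_comp, mul_comp, X_comp, C_comp, C_1, Polynomial.coe_add, Polynomial.coe_one,
    Polynomial.coe_mul, Polynomial.coe_pow, Polynomial.coe_X]
  ring

theorem ramified_one (C : Cover S G) (T : Finset S.Pt) (hpos : ∀ v ∈ T, 0 < S.deg v) (χ : G →* E) :
    (C.ramified T χ).coeff 0 = 1 := by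
  classical
  rw [coeff_zero_eq_eval_zero, Cover.ramified, eval_prod]
  refine Finset.prod_eq_one fun v hv => ?_
  rw [eval_comp, eval_pow, eval_X, zero_pow (hpos v (Finset.mem_of_mem_filter v hv)).ne',
    ← coeff_zero_eq_eval_zero, S.one]

/-- the L-function over the points where `χ` is unramified -/
theorem isL_unr (C : Cover S G) {T : Finset S.Pt} (hT : C.Outside T) (hpos : ∀ v ∈ T, 0 < S.deg v)
    {N D : ℤ[X]} (h : S.IsL Set.univ N D) (χ : G →* E) :
    S.IsL (C.unr χ) (N * C.ramified T χ) D := by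
  classical
  refine ⟨?_, h.2.1, ?_⟩
  · rw [mul_coeff_zero, h.1, one_mul]
    exact ramified_one C T hpos χ
  · have hf : ∀ v : S.Pt, (PowerSeries.X : PowerSeries ℤ) ^ S.deg v ∣
        (((S.P v).comp (X ^ S.deg v) : ℤ[X]) : PowerSeries ℤ) - 1 := fun v =>
      comp_mod _ (S.one v)
    have h1 : eulerProd (fun v : {v : S.Pt // v ∈ C.unr χ} => S.deg v)
        (fun v => (((S.P v).comp (X ^ S.deg v) : ℤ[X]) : PowerSeries ℤ)) =
        eulerProd S.deg (fun v => if v ∈ C.unr χ then
          (((S.P v).comp (X ^ S.deg v) : ℤ[X]) : PowerSeries ℤ) else 1) :=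
      eulerProd_subtype (fun v => v ∈ C.unr χ) S.finite
        (f := fun v => (((S.P v).comp (X ^ S.deg v) : ℤ[X]) : PowerSeries ℤ)) (fun v _ => hf v)
    have h2 : eulerProd (fun v : {v : S.Pt // v ∈ (Set.univ : Set S.Pt)} => S.deg v)
        (fun v => (((S.P v).comp (X ^ S.deg v) : ℤ[X]) : PowerSeries ℤ)) =
        eulerProd S.deg (fun v => if v ∈ (Set.univ : Set S.Pt) then
          (((S.P v).comp (X ^ S.deg v) : ℤ[X]) : PowerSeries ℤ) else 1) :=
      eulerProd_subtype (fun v => v ∈ (Set.univ : Set S.Pt)) S.finite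
        (f := fun v => (((S.P v).comp (X ^ S.deg v) : ℤ[X]) : PowerSeries ℤ)) (fun v _ => hf v)
    have hif : ∀ (p : S.Pt → Prop) [DecidablePred p] (v : S.Pt),
        (PowerSeries.X : PowerSeries ℤ) ^ S.deg v ∣ (if p v then
          (((S.P v).comp (X ^ S.deg v) : ℤ[X]) : PowerSeries ℤ) else 1) - 1 := by
      intro p _ v
      split_ifs with h
      · exact hf v
      · rw [sub_self]; exact dvd_zero _
    have h3 : eulerProd S.deg (fun v => if v ∈ (Set.univ : Set S.Pt) then
          (((S.P v).comp (X ^ S.deg v) : ℤ[X]) : PowerSeries ℤ) else 1) =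
        eulerProd S.deg (fun v => if v ∈ C.unr χ then
          (((S.P v).comp (X ^ S.deg v) : ℤ[X]) : PowerSeries ℤ) else 1) *
        eulerProd S.deg (fun v => if v ∉ C.unr χ then
          (((S.P v).comp (X ^ S.deg v) : ℤ[X]) : PowerSeries ℤ) else 1) := by
      rw [← eulerProd_mul S.finite (fun v => hif (fun v => v ∈ C.unr χ) v)
        (fun v => hif (fun v => v ∉ C.unr χ) v)]
      congr 1
      funext v
      by_cases hv : v ∈ C.unr χ <;> simp [hv]
    have h4 : eulerProd S.deg (fun v => if v ∉ C.unr χ then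
          (((S.P v).comp (X ^ S.deg v) : ℤ[X]) : PowerSeries ℤ) else 1) =
        ((C.ramified T χ : ℤ[X]) : PowerSeries ℤ) := by
      rw [eulerProd_of_finset S.finite (fun v => hif (fun v => v ∉ C.unr χ) v)
        (T.filter (fun v => v ∉ C.unr χ)) (fun v hv => by
          rw [Finset.mem_filter, not_and, not_not] at hv
          by_cases hvT : v ∈ T
          · exact if_neg (not_not.2 (hv hvT))
          · refine if_neg (not_not.2 ?_)
            intro g hg
            rw [hT v hvT, Subgroup.mem_bot] at hg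
            rw [hg, map_one])]
      rw [Cover.ramified]
      have h5 : ((∏ v ∈ T.filter (fun v => v ∉ C.unr χ), (S.P v).comp (X ^ S.deg v) : ℤ[X]) :
          PowerSeries ℤ) = ∏ v ∈ T.filter (fun v => v ∉ C.unr χ),
            (((S.P v).comp (X ^ S.deg v) : ℤ[X]) : PowerSeries ℤ) := by
        rw [← Polynomial.coeToPowerSeries.ringHom_apply, map_prod]
        rfl
      rw [h5]
      exact Finset.prod_congr rfl fun v hv => if_pos (Finset.mem_filter.1 hv).2
    have h0 : (N : PowerSeries ℤ) * eulerProd (fun v : {v : S.Pt // v ∈ (Set.univ : Set S.Pt)} =>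
        S.deg v) (fun v => (((S.P v).comp (X ^ S.deg v) : ℤ[X]) : PowerSeries ℤ)) = D := h.2.2
    show ((N * C.ramified T χ : ℤ[X]) : PowerSeries ℤ) *
      eulerProd (fun v : {v : S.Pt // v ∈ C.unr χ} => S.deg v)
        (fun v => (((S.P v).comp (X ^ S.deg v) : ℤ[X]) : PowerSeries ℤ)) = D
    rw [h1, ← h0, h2, h3, h4, Polynomial.coe_mul]
    ring

end euler

section semi

variable {E : Type} [Field E] [CharZero E] [IsAlgClosed E] {V W : Type} [AddCommGroup V] [Module E V]
  [FiniteDimensional E V] [AddCommGroup W] [Module E W] [FiniteDimensional E W]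

/-- the restriction -/
noncomputable def res {Ψ : Module.End E W} {F : Submodule E W} (hF : ∀ x ∈ F, Ψ x ∈ F) :
    Module.End E F := Ψ.restrict hF

theorem res_pow {Ψ : Module.End E W} {F : Submodule E W} (hF : ∀ x ∈ F, Ψ x ∈ F) (n : ℕ)
    (x : F) : (((res hF) ^ n) x : W) = (Ψ ^ n) x := by
  induction n generalizing x with
  | zero => rfl
  | succ n ih =>
    rw [pow_succ, pow_succ]
    change (((res hF) ^ n) (res hF x) : W) = (Ψ ^ n) (Ψ x)
    rw [ih]
    rfl

/-- semisimplicity of the operator on the classes of the components of the fibres -/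
theorem fibres_eigen {Ψ : Module.End E W} {F : Submodule E W} (hF : ∀ x ∈ F, Ψ x ∈ F) {q n : ℕ}
    (hq : (q : E) ≠ 0) (hn : 0 < n) (h : ∀ x ∈ F, (Ψ ^ n) x = (q : E) ^ n • x) :
    (res hF).IsSemisimple := by
  have h1 : aeval (res hF) (X ^ n - C ((q : E) ^ n) : E[X]) = 0 := by
    rw [map_sub, map_pow, aeval_X, aeval_C]
    ext x
    have h2 : (((res hF) ^ n) x : W) = (Ψ ^ n) x := res_pow hF n x
    rw [LinearMap.sub_apply, Submodule.coe_sub, h2, h x.1 x.2, Module.algebraMap_end_apply]
    simp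
  refine Module.End.isSemisimple_of_squarefree_aeval_eq_zero ?_ h1
  exact (separable_X_pow_sub_C ((q : E) ^ n) (by exact_mod_cast hn.ne')
    (pow_ne_zero n hq)).squarefree

theorem iSup_of_semisimple {Φ : Module.End E V} (h : Φ.IsSemisimple) :
    ⨆ α, Φ.eigenspace α = ⊤ := by
  rw [← Module.End.iSup_maxGenEigenspace_eq_top Φ]
  refine iSup_congr fun α => ?_
  exact (h.isFinitelySemisimple.maxGenEigenspace_eq_eigenspace α).symm

/-- the sum of two semisimple operators -/
theorem semisimple_sum {Ψ : Module.End E W} {Φ : Module.End E V} (i : V →ₗ[E] W)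
    (hi : ∀ x, Ψ (i x) = i (Φ x)) {F : Submodule E W} (hF : ∀ x ∈ F, Ψ x ∈ F)
    (hs : LinearMap.range i ⊔ F = ⊤) (h1 : Φ.IsSemisimple) (h2 : (res hF).IsSemisimple) :
    Ψ.IsSemisimple := by
  refine Pool.Agent.TH117.HS.semisimple_of_iSup Ψ ?_
  rw [eq_top_iff, ← hs]
  refine sup_le ?_ ?_
  · rintro _ ⟨x, rfl⟩
    have h3 : x ∈ ⨆ α, Φ.eigenspace α := by rw [iSup_of_semisimple h1]; exact Submodule.mem_top
    have h4 : (⨆ α, Φ.eigenspace α) ≤ (⨆ α, Ψ.eigenspace α).comap i := by
      refine iSup_le fun α y hy => ?_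
      rw [Submodule.mem_comap]
      refine Submodule.mem_iSup_of_mem α ?_
      rw [Module.End.mem_eigenspace_iff] at hy ⊢
      rw [hi, hy, map_smul]
    exact h4 h3
  · intro x hx
    have h3 : (⟨x, hx⟩ : F) ∈ ⨆ α, (res hF).eigenspace α := by
      rw [iSup_of_semisimple h2]; exact Submodule.mem_top
    have h4 : (⨆ α, (res hF).eigenspace α) ≤ (⨆ α, Ψ.eigenspace α).comap F.subtype := by
      refine iSup_le fun α y hy => ?_
      rw [Submodule.mem_comap]
      refine Submodule.mem_iSup_of_mem α ?_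
      rw [Module.End.mem_eigenspace_iff] at hy ⊢
      exact congrArg Subtype.val hy
    exact h4 h3

theorem pow_incl {Ψ : Module.End E W} {Φ : Module.End E V} (i : V →ₗ[E] W)
    (hi : ∀ x, Ψ (i x) = i (Φ x)) (a : E) (n : ℕ) (x : V) :
    ((Ψ - a • (1 : Module.End E W)) ^ n) (i x) = i (((Φ - a • (1 : Module.End E V)) ^ n) x) := by
  induction n generalizing x with
  | zero => rfl
  | succ n ih =>
    rw [pow_succ, pow_succ]
    change ((Ψ - a • (1 : Module.End E W)) ^ n) (Ψ (i x) - a • i x) =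
      i (((Φ - a • (1 : Module.End E V)) ^ n) (Φ x - a • x))
    rw [← ih, map_sub i, map_smul i, hi]

theorem pow_stable {Ψ : Module.End E W} {F : Submodule E W} (hF : ∀ x ∈ F, Ψ x ∈ F) (a : E)
    (n : ℕ) (x : W) (hx : x ∈ F) : ((Ψ - a • (1 : Module.End E W)) ^ n) x ∈ F := by
  induction n generalizing x with
  | zero => exact hx
  | succ n ih =>
    rw [pow_succ]
    change ((Ψ - a • (1 : Module.End E W)) ^ n) (Ψ x - a • x) ∈ F
    exact ih _ (F.sub_mem (hF x hx) (F.smul_mem a hx))

/-- semisimplicity at one eigenvalue -/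
theorem semisimpleAt_sum {Ψ : Module.End E W} {Φ : Module.End E V} (i : V →ₗ[E] W)
    (hinj : Function.Injective i)
    (hi : ∀ x, Ψ (i x) = i (Φ x)) {F : Submodule E W} (hF : ∀ x ∈ F, Ψ x ∈ F)
    (hs : IsCompl (LinearMap.range i) F) (a : E) (h1 : Φ.maxGenEigenspace a = Φ.eigenspace a)
    (h2 : (res hF).IsSemisimple) : Ψ.maxGenEigenspace a = Ψ.eigenspace a := by
  refine le_antisymm ?_ ((Ψ.genEigenspace a).mono le_top)
  intro x hx
  obtain ⟨n, hn⟩ := (Module.End.mem_maxGenEigenspace Ψ a x).1 hx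
  obtain ⟨y, hy, z, hz, rfl⟩ := Submodule.mem_sup.1 (show x ∈ LinearMap.range i ⊔ F by
    rw [hs.sup_eq_top]; exact Submodule.mem_top)
  obtain ⟨v, rfl⟩ := hy
  rw [map_add, pow_incl i hi] at hn
  have h3 : ((Ψ - a • (1 : Module.End E W)) ^ n) z ∈ F := pow_stable hF a n z hz
  have h4 : ((Ψ - a • (1 : Module.End E W)) ^ n) z ∈ LinearMap.range i := by
    have : ((Ψ - a • (1 : Module.End E W)) ^ n) z =
        - i (((Φ - a • (1 : Module.End E V)) ^ n) v) := eq_neg_of_add_eq_zero_right hn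
    rw [this, ← map_neg]
    exact ⟨_, rfl⟩
  have h5 : ((Ψ - a • (1 : Module.End E W)) ^ n) z = 0 := by
    have := hs.disjoint.le_bot ⟨h4, h3⟩
    exact (Submodule.mem_bot E).1 this
  rw [h5, add_zero] at hn
  have h6 : ((Φ - a • (1 : Module.End E V)) ^ n) v = 0 := by
    apply hinj
    rw [hn, map_zero]
  have h7 : v ∈ Φ.eigenspace a := by
    rw [← h1, Module.End.mem_maxGenEigenspace]
    exact ⟨n, h6⟩
  have h8 : (⟨z, hz⟩ : F) ∈ (res hF).maxGenEigenspace a := by
    rw [Module.End.mem_maxGenEigenspace]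
    refine ⟨n, ?_⟩
    apply Subtype.ext
    have h9 : ∀ (m : ℕ) (w : F), ((((res hF) - a • (1 : Module.End E F)) ^ m) w : W) =
        ((Ψ - a • (1 : Module.End E W)) ^ m) w.1 := by
      intro m
      induction m with
      | zero => intro w; rfl
      | succ m ih =>
        intro w
        rw [pow_succ, pow_succ]
        exact ih (((res hF) - a • (1 : Module.End E F)) w)
    rw [h9, h5]
    rfl
  rw [h2.isFinitelySemisimple.maxGenEigenspace_eq_eigenspace a,
    Module.End.mem_eigenspace_iff] at h8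
  have h10 : Ψ z = a • z := congrArg Subtype.val h8
  rw [Module.End.mem_eigenspace_iff] at h7 ⊢
  rw [map_add, hi, h7, h10, map_smul, smul_add]

end semi

end Pool.Agent.J6H24.SS
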