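import Pool.Agent.J6H24.SS.FinF

/-!
# Surfaces fibred over curves: the multiplicity of `q`
-/

set_option autoImplicit false
set_option linter.all false

namespace Pool.Agent.J6H24.SS

open Polynomial Module Pool.Agent.W343.BSD
open Pool.Agent.J6H31.GA (eig part isotypic mapsTo_eig jordan_bound detTerm IsAlgebraic)

variable {S : Sheaf} {G : Type} [CommGroup G] [Fintype G] {E : Type} [Field E] [CharZero E]
  [IsAlgClosed E] {C : Cover S G} {q : ℕ} {V : Type} [AddCommGroup V]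
  [Module E V] [FiniteDimensional E V] {Φ : Module.End E V} {ρ : G →* Module.End E V}
  {B : LinearMap.BilinForm E V}

theorem sign_eq (hc : ∀ g, Commute Φ (ρ g)) (p : ℕ) (χ : G →* E) :
    sign hc p q χ = detTerm Φ ρ (q : E) p χ := by
  unfold sign detTerm
  by_cases h : p = 2 ∧ (∀ g, χ g ^ 2 = 1) ∧ MinusDet (onPiece hc χ) q
  · rw [if_pos h, if_pos (⟨h.1, h.2.1, hc, h.2.2⟩ :
      p = 2 ∧ Pool.Agent.J6H31.GA.MinusDet Φ ρ (q : E) χ)]
  · rw [if_neg h, if_neg (fun h' : p = 2 ∧ Pool.Agent.J6H31.GA.MinusDet Φ ρ (q : E) χ => by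
      obtain ⟨h1, h2, h3, h4⟩ := h'
      exact h ⟨h1, h2, h4⟩)]

theorem q_ne {p : ℕ} (hq : ¬ p ∣ q) : (q : E) ≠ 0 := by
  intro h0
  have h1 : q = 0 := by exact_mod_cast h0
  rw [h1] at hq
  exact hq (dvd_zero p)

theorem bound {p s : ℕ} [Fact p.Prime] (hq : ¬ p ∣ q) (hG : ∀ g : G, g ^ p ^ s = 1)
    (h : IsH1 C q Φ ρ B) (R : (G →* E) → (ZMod p)[X])
    (hred : ∀ χ : G →* E, χ ≠ 1 → Reduces (onPiece h.comm χ) p (R χ)) {χ : G →* E} (hχ : χ ≠ 1) :
    genDim Φ ρ χ (q : E) + sign h.comm p q χ ≤ order p q (R χ) := by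
  have h1 := gen_bound (m := 1) (d := 2) hq hG rfl h.comm hred B h.duality.nondeg
    h.duality.group h.duality.frob hχ (α := (q : E)) (pow_one _).symm
  rw [pow_one] at h1
  rw [sign_eq]
  exact_mod_cast h1

theorem kills {p s : ℕ} [Fact p.Prime] (hq : ¬ p ∣ q) (hG : ∀ g : G, g ^ p ^ s = 1)
    (h : IsH1 C q Φ ρ B) (R : (G →* E) → (ZMod p)[X])
    (hred : ∀ χ : G →* E, χ ≠ 1 → Reduces (onPiece h.comm χ) p (R χ)) (A : Submodule E V)
    (hA : IsAlg q Φ ρ B A) {χ : G →* E} (hχ : χ ≠ 1)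
    (hs : Small χ (order p q (R χ)) (rank ρ A χ + sign h.comm p q χ)) :
    ∀ x ∈ Φ.maxGenEigenspace (q : E) ⊓ eig ρ χ, Φ x = (q : E) • x := by
  intro x hx
  have hb := bound hq hG h R hred hχ
  have hsym : ∀ x y, B x y = B y x := fun x y => by
    rw [h.duality.symm x y]; norm_num
  have hb1 : finrank E (Φ.maxGenEigenspace (q : E) ⊓ eig ρ χ : Submodule E V) =
      genDim Φ ρ χ (q : E) := rfl
  have hb2 : finrank E (A ⊓ eig ρ χ : Submodule E V) = rank ρ A χ := rfl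
  have h1 := jordan_bound B h.duality.nondeg hsym (q_ne hq) h.comm h.duality.group
    h.duality.frob (⟨hA.stable, hA.eigen, hA.nondeg⟩ : IsAlgebraic B Φ ρ (q : E) A) χ
    (e := 1) le_rfl (by
      rw [hb1, hb2]
      rcases hs with h | ⟨h, h'⟩
      · left
        omega
      · right
        exact ⟨h, odd_one, by omega⟩) x hx
  rw [pow_one] at h1
  exact sub_eq_zero.1 h1

theorem weak {p s : ℕ} [Fact p.Prime] (hq : ¬ p ∣ q) (hG : ∀ g : G, g ^ p ^ s = 1)
    (h : IsH1 C q Φ ρ B) (R : (G →* E) → (ZMod p)[X])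
    (hred : ∀ χ : G →* E, χ ≠ 1 → Reduces (onPiece h.comm χ) p (R χ)) (A : Submodule E V)
    (hA : IsAlg q Φ ρ B A)
    (hs : ∀ χ : G →* E, χ ≠ 1 →
      Small χ (order p q (R χ)) (rank ρ A χ + sign h.comm p q χ))
    (h1 : SemisimpleAt (onPiece h.comm (1 : G →* E)) (q : E)) :
    SemisimpleAt Φ (q : E) := by
  refine le_antisymm ?_ ((Φ.genEigenspace _).mono le_top)
  have h3 := isotypic (ρ := ρ) (Φ.maxGenEigenspace (q : E)) (fun g v hv =>
    Module.End.mapsTo_maxGenEigenspace_of_comm (h.comm g) _ hv)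
  refine h3.trans (iSup_le fun χ => ?_)
  intro x hx
  rw [Module.End.mem_eigenspace_iff]
  by_cases hχ : χ = 1
  · subst hχ
    have h2 : (onPiece h.comm (1 : G →* E)).maxGenEigenspace (q : E)
        = (Φ.maxGenEigenspace (q : E)).comap (eig ρ 1).subtype :=
      Module.End.genEigenspace_restrict Φ (eig ρ 1) ⊤ _ (mapsTo_eig h.comm 1)
    have h4 : (⟨x, hx.2⟩ : piece ρ 1) ∈
        (onPiece h.comm (1 : G →* E)).maxGenEigenspace (q : E) := by
      rw [h2]; exact hx.1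
    have h1' : (onPiece h.comm (1 : G →* E)).maxGenEigenspace (q : E) =
      (onPiece h.comm (1 : G →* E)).eigenspace (q : E) := h1
    rw [h1'] at h4
    have h5 := Module.End.mem_eigenspace_iff.1 h4
    exact congrArg Subtype.val h5
  · exact kills hq hG h R hred A hA hχ (hs χ hχ) x hx

/-- the bundled cohomology group -/
noncomputable def IsH1.toCoh (h : IsH1 C q Φ ρ B) : Coh C 1 2 q E where
  V := V
  Φ := Φ
  ρ := ρ
  B := B
  comm := h.comm
  duality := h.duality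
  grothendieck := fun χ hχ => by
    rw [if_pos odd_one]
    exact h.grothendieck χ hχ

theorem strong {p s : ℕ} [Fact p.Prime] (hq : ¬ p ∣ q) (hG : ∀ g : G, g ^ p ^ s = 1)
    (h : IsH1 C q Φ ρ B) (R : (G →* E) → (ZMod p)[X])
    (hred : ∀ χ : G →* E, χ ≠ 1 → Reduces (onPiece h.comm χ) p (R χ)) (A : Submodule E V)
    (hA : IsAlg q Φ ρ B A)
    (hs : ∀ χ : G →* E, χ ≠ 1 → Mild χ p q (R χ) (rank ρ A χ))
    (h1 : (onPiece h.comm (1 : G →* E)).IsSemisimple) : Φ.IsSemisimple := by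
  refine h.toCoh.semisimple hq hG A ⟨hA.stable, ?_, hA.nondeg⟩ R hred (fun χ hχ => ?_) h1
  · intro c hc x hx
    have hc1 : c = 1 := by omega
    rw [hc1, pow_one]
    exact hA.eigen x hx
  · rcases hs χ hχ with h2 | ⟨j, R₁, h2, h3, h4, h5⟩
    · exact Or.inl h2
    · refine Or.inr ⟨1, j, R₁, rfl, h2, ?_, ?_, h5⟩
      · rw [pow_one]; exact h3
      · rw [pow_one]; exact h4

theorem onF {W : Type} [AddCommGroup W] [Module E W] {p : ℕ} (hq : ¬ p ∣ q)
    {Ψ : Module.End E W} {i : V →ₗ[E] W} {F : Submodule E W} (h : IsH2 q Φ Ψ i F)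
    [FiniteDimensional E W] : (res h.stable).IsSemisimple := by
  obtain ⟨n, hn, h'⟩ := h.fibres
  exact fibres_eigen h.stable (q_ne hq) hn h'

end Pool.Agent.J6H24.SS
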