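import Pool.Agent.J6H24.SS.StmT
import Pool.Agent.J6H24.SS.FinG

/-!
# Tate classes: the proofs
-/

set_option autoImplicit false
set_option linter.all false

namespace Pool.Agent.J6H24.SS

open Polynomial Module Pool.Agent.W343.BSD
open Pool.Agent.J6H31.GA (eig part isotypic mapsTo_eig)

variable {p : ℕ} [Fact p.Prime] {G : Type} [CommGroup G] {E : Type} [Field E] {V : Type}
  [AddCommGroup V] [Module E V] [FiniteDimensional E V] {W : Type} [AddCommGroup W] [Module E W]
  {ρ : G →* Module.End E V} {B : LinearMap.BilinForm E V}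

theorem mem_tate {P : Set (Reduct p ρ B)} {x : V} :
    x ∈ tate P ↔ ∀ w ∈ P, w.Φ x = (w.q : E) • x := Iff.rfl

theorem mem_classes {I : Type 1} {P : Set I} {F : I → Module.End E W} {q : I → ℕ} {x : W} :
    x ∈ classes P F q ↔ ∀ w ∈ P, F w x = (q w : E) • x := Iff.rfl

theorem tate_stable {P : Set (Reduct p ρ B)} (g : G) {x : V} (hx : x ∈ tate P) :
    ρ g x ∈ tate P := by
  rw [mem_tate] at hx ⊢
  intro w hw
  have h1 : w.Φ (ρ g x) = ρ g (w.Φ x) := LinearMap.congr_fun (w.isH1.comm g).eq x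
  rw [h1, hx w hw, map_smul]

variable [Fintype G] [CharZero E] [IsAlgClosed E]

theorem Reduct.reduces {s : ℕ} (hG : ∀ g : G, g ^ p ^ s = 1) (w : Reduct p ρ B) (χ : G →* E)
    (hχ : χ ≠ 1) : Reduces (onPiece w.isH1.comm χ) p (w.red χ) := by
  have h1 : Reduces (onPiece w.isH1.comm χ) p (SS.red p 1 (w.N * w.C.ramified w.T χ) w.D) :=
    Pool.Agent.J6H24.SS.reduces hG (w.isH1.toCoh.grothendieck χ hχ) (isL_unr w.C w.outside w.pos w.isL χ)
  have h2 : w.red χ = SS.red p 1 (w.N * w.C.ramified w.T χ) w.D := by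
    unfold Reduct.red Cover.redL SS.red
    rw [if_pos odd_one]
  rw [h2]
  exact h1

/-- **the bound at one place** -/
theorem rank_le {s : ℕ} (hG : ∀ g : G, g ^ p ^ s = 1) {P : Set (Reduct p ρ B)}
    {w : Reduct p ρ B} (hw : w ∈ P) {χ : G →* E} (hχ : χ ≠ 1) :
    rank ρ (tate P) χ + w.sign χ ≤ w.order χ := by
  have h1 := bound w.prime hG w.isH1 (fun χ => w.red χ) (fun χ hχ => w.reduces hG χ hχ) hχ
  have h2 : rank ρ (tate P) χ ≤ genDim w.Φ ρ χ (w.q : E) := by
    refine Submodule.finrank_mono (inf_le_inf_right _ fun y hy => ?_)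
    exact ((w.Φ.genEigenspace _).mono le_top) (Module.End.mem_eigenspace_iff.2 (hy w hw))
  have h3 : w.sign χ = SS.sign w.isH1.comm p w.q χ := rfl
  have h4 : w.order χ = SS.order p w.q (w.red χ) := rfl
  rw [h3, h4]
  exact (Nat.add_le_add_right h2 _).trans h1

/-- **the Tate classes** -/
theorem tate_le {s : ℕ} (hG : ∀ g : G, g ^ p ^ s = 1) {P : Set (Reduct p ρ B)}
    {A : Submodule E V} (hA : A ≤ tate P)
    (h : ∀ χ : G →* E, χ ≠ 1 → ∃ w ∈ P, w.order χ ≤ rank ρ A χ + w.sign χ)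
    (h1 : tate P ⊓ piece ρ 1 ≤ A) : tate P ≤ A := by
  have h3 := isotypic (ρ := ρ) (tate P) (fun g v hv => tate_stable g hv)
  refine h3.trans (iSup_le fun χ => ?_)
  by_cases hχ : χ = 1
  · rw [hχ]; exact h1
  · obtain ⟨w, hw, h4⟩ := h χ hχ
    have h5 := rank_le hG hw hχ
    have h6 : (A ⊓ piece ρ χ : Submodule E V) ≤ tate P ⊓ piece ρ χ := inf_le_inf_right _ hA
    have h7 : (A ⊓ piece ρ χ : Submodule E V) = tate P ⊓ piece ρ χ := by
      refine Submodule.eq_of_le_of_finrank_le h6 ?_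
      have e1 : finrank E (tate P ⊓ piece ρ χ : Submodule E V) = rank ρ (tate P) χ := rfl
      have e2 : finrank E (A ⊓ piece ρ χ : Submodule E V) = rank ρ A χ := rfl
      rw [e1, e2]
      omega
    have h8 : (tate P ⊓ eig ρ χ : Submodule E V) = tate P ⊓ piece ρ χ := rfl
    rw [h8, ← h7]
    exact inf_le_left

/-- **the Tate classes of the surface** -/
theorem classes_le {P : Set (Reduct p ρ B)} {Ψ : Reduct p ρ B → Module.End E W}
    {i : V →ₗ[E] W} {F : Submodule E W} (hS : IsSurface P Ψ i F) {A : Submodule E V}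
    {A' : Submodule E W} (hA : ∀ x ∈ A, i x ∈ A')
    (hF : F ⊓ classes P Ψ (fun w => w.q) ≤ A') (h : tate P ≤ A) :
    classes P Ψ (fun w => w.q) ≤ A' := by
  intro x hx
  obtain ⟨y, hy, z, hz, rfl⟩ := Submodule.mem_sup.1 (show x ∈ LinearMap.range i ⊔ F by
    rw [hS.sum.sup_eq_top]; exact Submodule.mem_top)
  obtain ⟨v, rfl⟩ := hy
  have key : ∀ w ∈ P, w.Φ v = (w.q : E) • v ∧ Ψ w z = (w.q : E) • z := by
    intro w hw
    have h1 : Ψ w (i v + z) = (w.q : E) • (i v + z) := hx w hw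
    rw [map_add, hS.frob w hw, smul_add] at h1
    have h2 : i (w.Φ v - (w.q : E) • v) = (w.q : E) • z - Ψ w z := by
      rw [map_sub, map_smul]
      rw [sub_eq_sub_iff_add_eq_add, h1, add_comm]
    have h3 : i (w.Φ v - (w.q : E) • v) ∈ F := by
      rw [h2]
      exact F.sub_mem (F.smul_mem _ hz) (hS.stable w hw z hz)
    have h4 : i (w.Φ v - (w.q : E) • v) = 0 := by
      have := hS.sum.disjoint.le_bot ⟨LinearMap.mem_range_self i _, h3⟩
      exact (Submodule.mem_bot E).1 this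
    constructor
    · have h5 : w.Φ v - (w.q : E) • v = 0 := by
        apply hS.injective
        rw [h4, map_zero]
      exact sub_eq_zero.1 h5
    · rw [h4] at h2
      exact (sub_eq_zero.1 h2.symm).symm
  refine A'.add_mem (hA v (h fun w hw => (key w hw).1)) (hF ⟨hz, fun w hw => (key w hw).2⟩)

end Pool.Agent.J6H24.SS
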