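import Pool.Agent.J6H31.GA.StmM
import Pool.Agent.J6H31.GA.Weak
import Pool.Agent.W343.BSD.Euler

/-!
# Characteristic polynomials given by twisted Euler products
-/

set_option autoImplicit false
set_option linter.all false

namespace Pool.Agent.J6H24.SS

open Polynomial Module Pool.Agent.W343.BSD Pool.Agent.J6H31.GA

section series

variable {E : Type} [Field E]

/-- the inclusion of the algebraic integers -/
abbrev inc (E : Type) [Field E] : Oint E →+* E := (Oint E).subtype

theorem iota_inj : Function.Injective (inc E) := Subtype.val_injective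

theorem lift_coe (Q : E[X]) (W : PowerSeries (Oint E))
    (h : (Q : PowerSeries E) = PowerSeries.map (inc E) W) :
    ∃ Q' : (Oint E)[X], Q'.map (inc E) = Q ∧ (Q' : PowerSeries (Oint E)) = W := by
  have h1 : Q ∈ Polynomial.lifts (inc E) := by
    rw [Polynomial.lifts_iff_coeff_lifts]
    intro n
    refine ⟨PowerSeries.coeff n W, ?_⟩
    have h2 := congrArg (PowerSeries.coeff n) h
    rw [Polynomial.coeff_coe, PowerSeries.coeff_map] at h2
    exact h2.symm
  obtain ⟨Q', hQ'⟩ := h1
  have hQ'' : Q'.map (inc E) = Q := hQ'
  refine ⟨Q', hQ'', ?_⟩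
  apply PowerSeries.map_injective (inc E) iota_inj
  rw [← h, ← hQ'', ← Polynomial.polynomial_map_coe]

theorem lift_of_mul (Q : E[X]) (hQ : Q.coeff 0 = 1) (Z : PowerSeries (Oint E))
    (h : (Q : PowerSeries E) * PowerSeries.map (inc E) Z = 1) :
    ∃ Q' : (Oint E)[X], Q'.map (inc E) = Q ∧ (Q' : PowerSeries (Oint E)) * Z = 1 := by
  have h1 : PowerSeries.constantCoeff Z = 1 := by
    have h2 := congrArg PowerSeries.constantCoeff h
    rw [map_mul, map_one, ← PowerSeries.coeff_zero_eq_constantCoeff_apply, Polynomial.coeff_coe,
      hQ, one_mul, ← PowerSeries.coeff_zero_eq_constantCoeff_apply, PowerSeries.coeff_map] at h2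
    apply iota_inj
    rw [← PowerSeries.coeff_zero_eq_constantCoeff_apply, h2, map_one]
  have hu : IsUnit Z := PowerSeries.isUnit_iff_constantCoeff.2 (by rw [h1]; exact isUnit_one)
  obtain ⟨W, hW⟩ := hu.exists_right_inv
  have h3 : (Q : PowerSeries E) = PowerSeries.map (inc E) W := by
    have h4 : PowerSeries.map (inc E) Z * PowerSeries.map (inc E) W = 1 := by rw [← map_mul, hW, map_one]
    calc (Q : PowerSeries E) = Q * (PowerSeries.map (inc E) Z * PowerSeries.map (inc E) W) := by
          rw [h4, mul_one]
      _ = PowerSeries.map (inc E) W := by rw [← mul_assoc, h, one_mul]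
  obtain ⟨Q', h5, h6⟩ := lift_coe Q W h3
  exact ⟨Q', h5, by rw [h6, mul_comm]; exact hW⟩

theorem reverse_prod (M : Multiset E) :
    ((M.map fun x => X - C x).prod : E[X]).reverse = (M.map fun x => 1 - C x * X).prod := by
  induction M using Multiset.induction_on with
  | empty => rw [Multiset.map_zero, Multiset.prod_zero, Multiset.map_zero, Multiset.prod_zero, ← C_1, reverse_C]
  | cons x M ih =>
    rw [Multiset.map_cons, Multiset.prod_cons, Multiset.map_cons, Multiset.prod_cons,
      reverse_mul_of_domain, ih]
    congr 1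
    by_cases hx : x = 0
    · subst hx
      rw [C_0, sub_zero, zero_mul, sub_zero]
      have := reverse_mul_X (1 : E[X])
      rw [one_mul] at this
      rw [this, ← C_1, reverse_C]
    · have h1 : (X - C x : E[X]).natDegree = 1 := natDegree_X_sub_C x
      unfold reverse
      rw [h1]
      ext n
      rw [coeff_reflect]
      rcases n with _ | _ | n
      · rw [revAt_le (by omega)]
        simp
      · rw [revAt_le (by omega)]
        simp [coeff_one]
      · rw [revAt_eq_self_of_lt (by omega)]
        simp [coeff_X, coeff_C, coeff_one]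

/-- the coefficients of the characteristic polynomial are integral if those of the reversed one are -/
theorem roots_integral {P : E[X]} (hP : P.Monic) {Q' : (Oint E)[X]} (h : Q'.map (inc E) = P.reverse) :
    ∀ x ∈ P.roots, IsIntegral ℤ x := by
  intro x hx
  have h1 : P ∈ Polynomial.lifts (inc E) := by
    rw [Polynomial.lifts_iff_coeff_lifts]
    intro n
    by_cases hn : n ≤ P.natDegree
    · have h2 : P.coeff n = P.reverse.coeff (P.natDegree - n) := by
        rw [coeff_reverse, revAt_le (by omega)]
        congr 1
        omega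
      rw [h2, ← h, coeff_map]
      exact ⟨_, rfl⟩
    · rw [coeff_eq_zero_of_natDegree_lt (by omega)]
      exact ⟨0, map_zero _⟩
  obtain ⟨P', hP', _, hmon⟩ := (lifts_and_natDegree_eq_and_monic h1 hP)
  have h3 : IsIntegral (Oint E) x := by
    refine ⟨P', hmon, ?_⟩
    have h4 : P.IsRoot x := (mem_roots hP.ne_zero).1 hx
    rw [IsRoot.def, ← hP', eval_map] at h4
    exact h4
  exact isIntegral_trans (R := ℤ) (A := integralClosure ℤ E) x h3

end series

end Pool.Agent.J6H24.SS
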