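import Pool.Agent.J6H24.SS.Stm
import Pool.Agent.J6H24.SS.Link

/-!
# The reduction of the characteristic polynomials
-/

set_option autoImplicit false
set_option linter.all false

namespace Pool.Agent.J6H24.SS

open Polynomial Module Pool.Agent.W343.BSD Pool.Agent.J6H31.GA

variable {S : Sheaf} {G : Type} [CommGroup G] {E : Type} [Field E]

theorem fin_sub (S : Sheaf) (A : Set S.Pt) (n : ℕ) :
    {v : {v : S.Pt // v ∈ A} | S.deg v ≤ n}.Finite :=
  (S.finite n).preimage Subtype.val_injective.injOn

theorem chi_integral {p s : ℕ} [hp : Fact p.Prime] (hG : ∀ g : G, g ^ p ^ s = 1) (χ : G →* E)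
    (g : G) : χ g ∈ Oint E := by
  have h1 : χ g ^ p ^ s = 1 := by rw [← map_pow, hG, map_one]
  have h2 : IsIntegral ℤ (χ g) := by
    refine IsIntegral.of_pow (n := p ^ s) (pow_pos hp.out.pos s) ?_
    rw [h1]; exact isIntegral_one
  exact h2

variable (C : Cover S G)

/-- the product with integral coefficients -/
noncomputable def invO {p s : ℕ} [hp : Fact p.Prime] (hG : ∀ g : G, g ^ p ^ s = 1)
    (χ : G →* E) : PowerSeries (Oint E) :=
  eulerProd (fun v : {v : S.Pt // v ∈ C.unr χ} => S.deg v)
    (fun v => ((((S.P v).map (Int.castRingHom (Oint E))).comp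
      (Polynomial.C (⟨χ (C.frob v), chi_integral hG χ _⟩ : Oint E) * X ^ S.deg v) : (Oint E)[X]) :
        PowerSeries (Oint E)))

theorem map_invO {p s : ℕ} [hp : Fact p.Prime] (hG : ∀ g : G, g ^ p ^ s = 1) (χ : G →* E) :
    PowerSeries.map (inc E) (invO C hG χ) = C.invL χ := by
  show _ = eulerProd (fun v : {v : S.Pt // v ∈ C.unr χ} => S.deg v)
    (fun v => ((((S.P v).map (Int.castRingHom E)).comp
      (Polynomial.C (χ (C.frob v)) * X ^ S.deg v) : E[X]) : PowerSeries E))
  unfold invO
  rw [map_eulerProd (fin_sub S _)]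
  congr 1
  funext v
  rw [← Polynomial.polynomial_map_coe, Polynomial.map_comp, Polynomial.map_map, Polynomial.map_mul,
    Polynomial.map_C, Polynomial.map_pow, Polynomial.map_X]
  congr 3

/-- the product modulo `p` -/
noncomputable def invK (χ : G →* E) (k : Type) [Field k] : PowerSeries k :=
  eulerProd (fun v : {v : S.Pt // v ∈ C.unr χ} => S.deg v)
    (fun v => ((((S.P v).map (Int.castRingHom k)).comp (X ^ S.deg v) : k[X]) : PowerSeries k))

theorem map_theta {p s : ℕ} [hp : Fact p.Prime] (hG : ∀ g : G, g ^ p ^ s = 1) (χ : G →* E)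
    (k : Type) [Field k] [CharP k p] (θ : Oint E →+* k) :
    PowerSeries.map θ (invO C hG χ) = invK C χ k := by
  unfold invO invK
  rw [map_eulerProd (fin_sub S _)]
  congr 1
  funext v
  rw [← Polynomial.polynomial_map_coe, Polynomial.map_comp, Polynomial.map_map, Polynomial.map_mul,
    Polynomial.map_C, Polynomial.map_pow, Polynomial.map_X]
  have h1 : θ (⟨χ (C.frob v), chi_integral hG χ _⟩ : Oint E) = 1 := by
    refine theta_root θ (p := p) (b := s) ?_
    apply Subtype.ext
    show χ (C.frob v) ^ p ^ s = 1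
    rw [← map_pow, hG, map_one]
  rw [h1, Polynomial.C_1, one_mul]
  congr 3
  exact RingHom.ext_int _ _

theorem map_int (χ : G →* E) (k : Type) [Field k] :
    PowerSeries.map (Int.castRingHom k) (eulerProd (fun v : {v : S.Pt // v ∈ C.unr χ} => S.deg v)
      (fun v => (((S.P v).comp (X ^ S.deg v) : ℤ[X]) : PowerSeries ℤ))) = invK C χ k := by
  unfold invK
  rw [map_eulerProd (fin_sub S _)]
  congr 1
  funext v
  rw [← Polynomial.polynomial_map_coe, Polynomial.map_comp, Polynomial.map_pow, Polynomial.map_X]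

theorem IsL_map {χ : G →* E} {N D : ℤ[X]} (h : S.IsL (C.unr χ) N D) (k : Type) [Field k] :
    ((N.map (Int.castRingHom k) : k[X]) : PowerSeries k) * invK C χ k =
      ((D.map (Int.castRingHom k) : k[X]) : PowerSeries k) := by
  have h0 : (N : PowerSeries ℤ) * eulerProd (fun v : {v : S.Pt // v ∈ C.unr χ} => S.deg v)
      (fun v => (((S.P v).comp (X ^ S.deg v) : ℤ[X]) : PowerSeries ℤ)) = D := h.2.2
  have h1 := congrArg (PowerSeries.map (Int.castRingHom k)) h0
  rw [map_mul, map_int, ← Polynomial.polynomial_map_coe, ← Polynomial.polynomial_map_coe] at h1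
  exact h1

theorem ne_zero_of_one {P : ℤ[X]} (h : P.coeff 0 = 1) (k : Type) [Field k] :
    P.map (Int.castRingHom k) ≠ 0 := by
  intro h0
  have h1 := congrArg (fun Q => Polynomial.coeff Q 0) h0
  simp [h] at h1

variable {C} [IsAlgClosed E] {V : Type} [AddCommGroup V] [Module E V] [FiniteDimensional E V]

theorem reverse_charpoly (Ψ : Module.End E V) :
    Ψ.charpoly.reverse = (Ψ.charpoly.roots.map fun x => 1 - Polynomial.C x * X).prod := by
  rw [← reverse_prod]
  congr 1
  exact (IsAlgClosed.splits Ψ.charpoly).eq_prod_roots_of_monic (LinearMap.charpoly_monic Ψ)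

theorem redProd_eq {Ψ : Module.End E V} {Q' : (Oint E)[X]} (hQ : Q'.map (inc E) = Ψ.charpoly.reverse)
    {k : Type} [Field k] (θ : Oint E →+* k) (A : Multiset (Oint E))
    (hA : A.map Subtype.val = Ψ.charpoly.roots) : redProd θ A = Q'.map θ := by
  have h1 : Q' = (A.map fun x => 1 - Polynomial.C x * X).prod := by
    apply Polynomial.map_injective (inc E) iota_inj
    rw [hQ, reverse_charpoly, ← hA, Polynomial.map_multiset_prod, Multiset.map_map, Multiset.map_map]
    congr 1
    refine Multiset.map_congr rfl fun x _ => ?_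
    simp
    rfl
  rw [h1, Polynomial.map_multiset_prod, Multiset.map_map]
  unfold redProd
  congr 1
  refine Multiset.map_congr rfl fun x _ => ?_
  simp

/-- **the reduction** -/
theorem reduces {p s m : ℕ} [hp : Fact p.Prime] (hG : ∀ g : G, g ^ p ^ s = 1) {χ : G →* E}
    {Ψ : Module.End E V}
    (h : if Odd m then ((Ψ.charpoly.reverse : E[X]) : PowerSeries E) * C.invL χ = 1
      else ((Ψ.charpoly.reverse : E[X]) : PowerSeries E) = C.invL χ) {N D : ℤ[X]}
    (hL : S.IsL (C.unr χ) N D) : Reduces Ψ p (red p m N D) := by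
  have hmon := LinearMap.charpoly_monic Ψ
  have h0 : Ψ.charpoly.reverse.coeff 0 = 1 := by
    rw [coeff_zero_reverse]; exact hmon
  by_cases hm : Odd m
  · rw [if_pos hm] at h
    rw [← map_invO C hG χ] at h
    obtain ⟨Q', hQ1, hQ2⟩ := lift_of_mul _ h0 _ h
    refine ⟨roots_integral hmon hQ1, fun k _ _ θ A hA => ?_⟩
    have : CharP k p := charP_of_injective_algebraMap (algebraMap (ZMod p) k).injective p
    have h1 := congrArg (PowerSeries.map θ) hQ2
    rw [map_mul, map_theta C hG χ k θ, map_one, ← Polynomial.polynomial_map_coe] at h1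
    have h2 := IsL_map C hL k
    have h3 : Q'.map θ * D.map (Int.castRingHom k) = N.map (Int.castRingHom k) := by
      apply Polynomial.coe_injective k
      rw [Polynomial.coe_mul, ← h2, mul_left_comm, h1, mul_one]
    rw [redProd_eq hQ1 θ A hA]
    unfold red
    rw [if_pos hm, Polynomial.map_div, Polynomial.map_map, Polynomial.map_map]
    have e1 : (algebraMap (ZMod p) k).comp (Int.castRingHom (ZMod p)) = Int.castRingHom k :=
      RingHom.ext_int _ _
    rw [e1, ← h3, mul_div_cancel_right₀ _ (ne_zero_of_one hL.2.1 k)]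
  · rw [if_neg hm] at h
    rw [← map_invO C hG χ] at h
    obtain ⟨Q', hQ1, hQ2⟩ := lift_coe _ _ h
    refine ⟨roots_integral hmon hQ1, fun k _ _ θ A hA => ?_⟩
    have : CharP k p := charP_of_injective_algebraMap (algebraMap (ZMod p) k).injective p
    have h1 := congrArg (PowerSeries.map θ) hQ2
    rw [map_theta C hG χ k θ, ← Polynomial.polynomial_map_coe] at h1
    have h2 := IsL_map C hL k
    have h3 : Q'.map θ * N.map (Int.castRingHom k) = D.map (Int.castRingHom k) := by
      apply Polynomial.coe_injective k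
      rw [Polynomial.coe_mul, h1, ← h2, mul_comm]
    rw [redProd_eq hQ1 θ A hA]
    unfold red
    rw [if_neg hm, Polynomial.map_div, Polynomial.map_map, Polynomial.map_map]
    have e1 : (algebraMap (ZMod p) k).comp (Int.castRingHom (ZMod p)) = Int.castRingHom k :=
      RingHom.ext_int _ _
    rw [e1, ← h3, mul_div_cancel_right₀ _ (ne_zero_of_one hL.1 k)]

end Pool.Agent.J6H24.SS
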