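import Mathlib

/-!
# Sheaves with integral Euler polynomials on varieties over finite fields, and abelian coverings

The notions used in the statements on the semisimplicity of Frobenius.
-/

set_option autoImplicit false
set_option linter.unusedSectionVars false

namespace Pool.Agent.J6H24.SS

open Polynomial Module

section lfunctions

/-- The product of the power series `f i`, where each `f i` is `1` plus terms of degree at least `d i`
and only finitely many `i` have `d i ≤ n`: the coefficient of index `n` is that of the finite product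
over all `i` with `d i ≤ n`. -/
noncomputable def product {ι R : Type} [CommRing R] (d : ι → ℕ) (f : ι → PowerSeries R) :
    PowerSeries R :=
  PowerSeries.mk fun n => PowerSeries.coeff n (∏ᶠ (i : ι) (_ : d i ≤ n), f i)

/-- The closed points `v` of a variety `X` over a finite field with their degrees, and for a sheaf `𝓕`
on `X` the polynomials `P v = det (1 - F_v T)` of the geometric Frobenius on the stalks of `𝓕`; they
are assumed to have integral coefficients. -/
structure Sheaf where
  Pt : Type
  deg : Pt → ℕ
  finite : ∀ n, {v | deg v ≤ n}.Finite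
  P : Pt → ℤ[X]
  one : ∀ v, (P v).coeff 0 = 1

/-- `N(T) / D(T)` is the L-function of the restriction of `𝓕` to the set `A`, that is
`∏ det (1 - F_v T ^ deg v)⁻¹`, the product over the closed points `v` in `A`. -/
def Sheaf.IsL (S : Sheaf) (A : Set S.Pt) (N D : ℤ[X]) : Prop :=
  N.coeff 0 = 1 ∧ D.coeff 0 = 1 ∧
    (N : PowerSeries ℤ) * product (fun v : {v : S.Pt // v ∈ A} => S.deg v)
      (fun v => (((S.P v).comp (X ^ S.deg v) : ℤ[X]) : PowerSeries ℤ)) = D

/-- The quotient `(N / D) ^ (± 1)` modulo `p`, with the sign `(-1) ^ (m + 1)`. -/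
noncomputable def red (p m : ℕ) [Fact p.Prime] (N D : ℤ[X]) : (ZMod p)[X] :=
  if Odd m then N.map (Int.castRingHom (ZMod p)) / D.map (Int.castRingHom (ZMod p))
  else D.map (Int.castRingHom (ZMod p)) / N.map (Int.castRingHom (ZMod p))

/-- A Galois covering `X' → X` with the finite abelian group `G`, `X = X' / G`: for each closed point `v`
of `X` the inertia group and a Frobenius element. -/
structure Cover (S : Sheaf) (G : Type) [CommGroup G] where
  inertia : S.Pt → Subgroup G
  frob : S.Pt → G

variable {S : Sheaf} {G : Type} [CommGroup G] {E : Type} [Field E]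

/-- The set of the closed points at which the character `χ` is unramified. -/
def Cover.unr (C : Cover S G) (χ : G →* E) : Set S.Pt := {v | ∀ g ∈ C.inertia v, χ g = 1}

/-- `1 / L(T, 𝓕 ⊗ χ)`, the product of the `det (1 - χ(F_v) F_v T ^ deg v)` over the closed points at
which `χ` is unramified. -/
noncomputable def Cover.invL (C : Cover S G) (χ : G →* E) : PowerSeries E :=
  product (fun v : {v : S.Pt // v ∈ C.unr χ} => S.deg v)
    (fun v => ((((S.P v).map (Int.castRingHom E)).comp
      (Polynomial.C (χ (C.frob v)) * X ^ S.deg v) : E[X]) : PowerSeries E))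

end lfunctions

section parts

variable {G : Type} [CommGroup G] {E : Type} [Field E] {V : Type} [AddCommGroup V] [Module E V]

/-- The part on which the group acts by `χ`. -/
def piece (ρ : G →* Module.End E V) (χ : G →* E) : Submodule E V := ⨅ g, (ρ g).eigenspace (χ g)

theorem mapsTo_piece {Φ : Module.End E V} {ρ : G →* Module.End E V}
    (hc : ∀ g, Commute Φ (ρ g)) (χ : G →* E) : ∀ v ∈ piece ρ χ, Φ v ∈ piece ρ χ := by
  intro v hv
  rw [piece, Submodule.mem_iInf] at hv ⊢
  intro g
  have h1 := Module.End.mem_eigenspace_iff.1 (hv g)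
  rw [Module.End.mem_eigenspace_iff]
  have h2 : ρ g (Φ v) = Φ (ρ g v) := LinearMap.congr_fun (hc g).symm.eq v
  rw [h2, h1, map_smul]

/-- The restriction of `Φ` to the part of `χ`. -/
noncomputable def onPiece {Φ : Module.End E V} {ρ : G →* Module.End E V}
    (hc : ∀ g, Commute Φ (ρ g)) (χ : G →* E) : Module.End E (piece ρ χ) :=
  Φ.restrict (mapsTo_piece hc χ)

/-- The form `B` has the properties of the pairing of Poincaré duality for the weight `w`: it is
nondegenerate, symmetric for even `w`, alternating for odd `w`, invariant under the group, and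
`B(Φ x, Φ y) = q ^ w B(x, y)`. -/
structure Duality (w q : ℕ) (Φ : Module.End E V) (ρ : G →* Module.End E V)
    (B : LinearMap.BilinForm E V) : Prop where
  nondeg : B.Nondegenerate
  symm : ∀ x y, B x y = (-1) ^ w * B y x
  group : ∀ g x y, B (ρ g x) (ρ g y) = B x y
  frob : ∀ x y, B (Φ x) (Φ y) = (q : E) ^ w * B x y

end parts

/-- Let `π : X' → X` be the covering, and let `V` be the cohomology group `H^m_c(X'̄, π^* 𝓕)`, pure of
weight `w`, over an algebraically closed field `E` which contains the `ℓ`-adic numbers, with the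
Frobenius `Φ`, the action `ρ` of the group and the pairing `B` of Poincaré duality. Suppose that the
parts for the characters `χ ≠ 1` of the cohomology groups in the other degrees are zero. Then
Grothendieck's formula for `𝓕 ⊗ χ` is `grothendieck`: the polynomial `det (1 - Φ T)` on the part of `χ`
is `L(T, 𝓕 ⊗ χ) ^ (± 1)`, with the sign `(-1) ^ (m + 1)`. -/
structure Coh {S : Sheaf} {G : Type} [CommGroup G] (C : Cover S G) (m w q : ℕ) (E : Type)
    [Field E] where
  V : Type
  [add : AddCommGroup V]
  [mod : Module E V]
  [fin : FiniteDimensional E V]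
  Φ : Module.End E V
  ρ : G →* Module.End E V
  B : LinearMap.BilinForm E V
  comm : ∀ g, Commute Φ (ρ g)
  duality : Duality w q Φ ρ B
  grothendieck : ∀ χ : G →* E, χ ≠ 1 →
    if Odd m then (((onPiece comm χ).charpoly.reverse : E[X]) : PowerSeries E) * C.invL χ = 1
    else (((onPiece comm χ).charpoly.reverse : E[X]) : PowerSeries E) = C.invL χ

attribute [instance] Coh.add Coh.mod Coh.fin

section cohomology

variable {S : Sheaf} {G : Type} [CommGroup G] {E : Type} [Field E] {C : Cover S G} {m w q : ℕ}

/-- The restriction of Frobenius to the part of `χ`. -/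
noncomputable def Coh.part (H : Coh C m w q E) (χ : G →* E) : Module.End E (piece H.ρ χ) :=
  onPiece H.comm χ

/-- The ring of algebraic integers in `E`. -/
abbrev Integers (E : Type) [Field E] : Subring E := (integralClosure ℤ E).toSubring

/-- The eigenvalues `x` of Frobenius on the part of `χ` are algebraic integers, and `∏ (1 - x T)` is
congruent to `R` modulo all places above `p`: this is so for all homomorphisms `θ` from the ring of
algebraic integers to a field of characteristic `p`. -/
def Coh.HasReduction (H : Coh C m w q E) (p : ℕ) [Fact p.Prime] (χ : G →* E)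
    (R : (ZMod p)[X]) : Prop :=
  (∀ x ∈ (H.part χ).charpoly.roots, IsIntegral ℤ x) ∧
  ∀ (k : Type) [Field k] [Algebra (ZMod p) k] (θ : Integers E →+* k) (A : Multiset (Integers E)),
    A.map Subtype.val = (H.part χ).charpoly.roots →
      (A.map fun x => 1 - Polynomial.C (θ x) * X).prod = R.map (algebraMap (ZMod p) k)

/-- The dimension of the generalized eigenspace of Frobenius for the eigenvalue `α` on the part of
`χ`. -/
noncomputable def Coh.mult (H : Coh C m w q E) (χ : G →* E) (α : E) : ℕ :=
  finrank E (H.Φ.maxGenEigenspace α ⊓ piece H.ρ χ : Submodule E H.V)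

/-- All zeros of `R` in extension fields of `𝔽_p` have multiplicity at most `e`. -/
def MultLE (p : ℕ) [Fact p.Prime] (R : (ZMod p)[X]) (e : ℕ) : Prop :=
  ∀ (k : Type) [Field k] [Algebra (ZMod p) k] (u : k),
    (R.map (algebraMap (ZMod p) k)).rootMultiplicity u ≤ e

/-- `A` is a space of algebraic classes: it is stable under the group, and if `w = 2 c`, then Frobenius
is multiplication by `q ^ c` on `A` and the pairing is nondegenerate on `A`. -/
structure Coh.IsAlg (H : Coh C m w q E) (A : Submodule E H.V) : Prop where
  stable : ∀ g, ∀ x ∈ A, H.ρ g x ∈ A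
  eigen : ∀ c, w = 2 * c → ∀ x ∈ A, H.Φ x = (q : E) ^ c • x
  nondeg : ∀ x ∈ A, (∀ y ∈ A, H.B x y = 0) → x = 0

/-- The dimension of the part of `A` on which the group acts by `χ`. -/
noncomputable def Coh.rank (H : Coh C m w q E) (A : Submodule E H.V) (χ : G →* E) : ℕ :=
  finrank E (A ⊓ piece H.ρ χ : Submodule E H.V)

/-- `R` is squarefree; or `w = 2 c` and `R = (1 - q ^ c T) ^ j R₁`, where `R₁` is squarefree and does not
vanish at `q ^ (-c)`, with `j ≤ rank A χ + 1`, or `χ² = 1` and `j ≤ rank A χ + 2`. -/
def Coh.Mild (H : Coh C m w q E) (p : ℕ) [Fact p.Prime] (A : Submodule E H.V) (χ : G →* E)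
    (R : (ZMod p)[X]) : Prop :=
  Squarefree R ∨ ∃ (c j : ℕ) (R₁ : (ZMod p)[X]), w = 2 * c ∧ Squarefree R₁ ∧
    R₁.eval ((q : ZMod p) ^ c)⁻¹ ≠ 0 ∧ R = (1 - Polynomial.C ((q : ZMod p) ^ c) * X) ^ j * R₁ ∧
    (j ≤ H.rank A χ + 1 ∨ (∀ g, χ g ^ 2 = 1) ∧ j ≤ H.rank A χ + 2)

end cohomology

end Pool.Agent.J6H24.SS
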