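import Pool.Agent.J6H24.SS.Stm

/-!
# Surfaces fibred over curves and abelian coverings of the curve

The notions used in the statements.
-/

set_option autoImplicit false
set_option linter.unusedSectionVars false

namespace Pool.Agent.J6H24.SS

open Polynomial Module

section covers

variable {S : Sheaf} {G : Type} [CommGroup G] {E : Type} [Field E]

/-- The covering is unramified outside `T`. -/
def Cover.Outside (C : Cover S G) (T : Finset S.Pt) : Prop := ∀ v ∉ T, C.inertia v = ⊥

open Classical in
/-- The product of the Euler polynomials `P_v(T ^ deg v)` over the points `v` at which the character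
`χ` is ramified. -/
noncomputable def Cover.ramified (C : Cover S G) (T : Finset S.Pt) (χ : G →* E) : ℤ[X] :=
  ∏ v ∈ T.filter (fun v => v ∉ C.unr χ), (S.P v).comp (X ^ S.deg v)

/-- `red_χ`, the reduction modulo `p` of the product of `N / D` and of the Euler polynomials at the
points at which `χ` is ramified. -/
noncomputable def Cover.redL (C : Cover S G) (p : ℕ) [Fact p.Prime] (T : Finset S.Pt) (N D : ℤ[X])
    (χ : G →* E) : (ZMod p)[X] :=
  (N * C.ramified T χ).map (Int.castRingHom (ZMod p)) / D.map (Int.castRingHom (ZMod p))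

/-- The order of the zero `T = 1 / q` of `R`. -/
noncomputable def order (p q : ℕ) [Fact p.Prime] (R : (ZMod p)[X]) : ℕ :=
  R.rootMultiplicity (q : ZMod p)⁻¹

end covers

section cohomology

variable {S : Sheaf} {G : Type} [CommGroup G] {E : Type} [Field E] {V : Type} [AddCommGroup V]
  [Module E V] [FiniteDimensional E V] {W : Type} [AddCommGroup W] [Module E W]

/-- `V = H¹(X'̄, 𝓕')`, where `X' → X` is the covering `C` of curves, with the Frobenius `Φ`, the action
`ρ` of the group and the pairing `B`; the weight is two. If the groups `H⁰` and `H²` of `𝓕'` have no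
parts for the characters `χ ≠ 1` then Grothendieck's formula for `𝓕 ⊗ χ` is `grothendieck`: the
polynomial `det (1 - Φ T)` on the part of `χ` is `L(T, 𝓕 ⊗ χ)`. -/
structure IsH1 (C : Cover S G) (q : ℕ) (Φ : Module.End E V) (ρ : G →* Module.End E V)
    (B : LinearMap.BilinForm E V) : Prop where
  comm : ∀ g, Commute Φ (ρ g)
  duality : Duality 2 q Φ ρ B
  grothendieck : ∀ χ : G →* E, χ ≠ 1 →
    (((onPiece comm χ).charpoly.reverse : E[X]) : PowerSeries E) * C.invL χ = 1

/-- `W` is the second cohomology group of a smooth projective surface fibred over the curve `X'`, with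
Frobenius `Ψ`: it is the direct sum of the image of `V = H¹(X'̄, 𝓕')`, where `𝓕'` is the first direct
image, and of the space `F` spanned by the classes of the components of the fibres and of a divisor
of positive degree on the fibres; a power of Frobenius is `q ^ n` on `F`. -/
structure IsH2 (q : ℕ) (Φ : Module.End E V) (Ψ : Module.End E W) (i : V →ₗ[E] W)
    (F : Submodule E W) : Prop where
  injective : Function.Injective i
  sum : IsCompl (LinearMap.range i) F
  frob : ∀ x, Ψ (i x) = i (Φ x)
  stable : ∀ x ∈ F, Ψ x ∈ F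
  fibres : ∃ n, 0 < n ∧ ∀ x ∈ F, (Ψ ^ n) x = (q : E) ^ n • x

/-- The eigenvalues `x` of `Ψ` are algebraic integers, and `∏ (1 - x T)` is congruent to `R` modulo all
places above `p`: this is so for all homomorphisms `θ` from the ring of algebraic integers to a field
of characteristic `p`. -/
def Reduces (Ψ : Module.End E V) (p : ℕ) [Fact p.Prime] (R : (ZMod p)[X]) : Prop :=
  (∀ x ∈ Ψ.charpoly.roots, IsIntegral ℤ x) ∧
  ∀ (k : Type) [Field k] [Algebra (ZMod p) k] (θ : Integers E →+* k) (A : Multiset (Integers E)),
    A.map Subtype.val = Ψ.charpoly.roots →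
      (A.map fun x => 1 - Polynomial.C (θ x) * X).prod = R.map (algebraMap (ZMod p) k)

/-- The dimension of the generalized eigenspace of `Φ` for the eigenvalue `α` on the part of `χ`. -/
noncomputable def genDim (Φ : Module.End E V) (ρ : G →* Module.End E V) (χ : G →* E) (α : E) : ℕ :=
  finrank E (Φ.maxGenEigenspace α ⊓ piece ρ χ : Submodule E V)

/-- The determinant of `Ψ` is `-q ^ dim`. -/
def MinusDet (Ψ : Module.End E V) (q : ℕ) : Prop := LinearMap.det Ψ = -(q : E) ^ finrank E V

open Classical in
/-- `1` if `p = 2`, `χ² = 1` and the determinant of Frobenius on the part of `χ` is `-q ^ dim`, and `0`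
otherwise. -/
noncomputable def sign {Φ : Module.End E V} {ρ : G →* Module.End E V}
    (hc : ∀ g, Commute Φ (ρ g)) (p q : ℕ) (χ : G →* E) : ℕ :=
  if p = 2 ∧ (∀ g, χ g ^ 2 = 1) ∧ MinusDet (onPiece hc χ) q then 1 else 0

/-- `A` is a space of algebraic classes: it is stable under the group, Frobenius is multiplication by
`q` on `A`, and the pairing is nondegenerate on `A`. -/
structure IsAlg (q : ℕ) (Φ : Module.End E V) (ρ : G →* Module.End E V)
    (B : LinearMap.BilinForm E V) (A : Submodule E V) : Prop where
  stable : ∀ g, ∀ x ∈ A, ρ g x ∈ A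
  eigen : ∀ x ∈ A, Φ x = (q : E) • x
  nondeg : ∀ x ∈ A, (∀ y ∈ A, B x y = 0) → x = 0

/-- The dimension of the part of `A` on which the group acts by `χ`. -/
noncomputable def rank (ρ : G →* Module.End E V) (A : Submodule E V) (χ : G →* E) : ℕ :=
  finrank E (A ⊓ piece ρ χ : Submodule E V)

/-- `o ≤ r + 1`, or `χ² = 1` and `o ≤ r + 2`. -/
def Small (χ : G →* E) (o r : ℕ) : Prop := o ≤ r + 1 ∨ (∀ g, χ g ^ 2 = 1) ∧ o ≤ r + 2

/-- `R` is squarefree; or `R = (1 - q T) ^ j R₁`, where `R₁` is squarefree and does not vanish at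
`1 / q`, with `j ≤ r + 1`, or `χ² = 1` and `j ≤ r + 2`. -/
def Mild (χ : G →* E) (p q : ℕ) [Fact p.Prime] (R : (ZMod p)[X]) (r : ℕ) : Prop :=
  Squarefree R ∨ ∃ (j : ℕ) (R₁ : (ZMod p)[X]), Squarefree R₁ ∧ R₁.eval (q : ZMod p)⁻¹ ≠ 0 ∧
    R = (1 - Polynomial.C (q : ZMod p) * X) ^ j * R₁ ∧ Small χ j r

/-- Frobenius is semisimple at the eigenvalue `α`: the generalized eigenspace is the eigenspace. -/
def SemisimpleAt (Ψ : Module.End E W) (α : E) : Prop :=
  Ψ.maxGenEigenspace α = Ψ.eigenspace α

end cohomology

end Pool.Agent.J6H24.SS
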