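import Pool.Agent.J6H24.SS.StmF

/-!
# Tate classes on surfaces fibred over curves, in abelian coverings of the curve

The notions used in the statements.
-/

set_option autoImplicit false
set_option linter.unusedSectionVars false

namespace Pool.Agent.J6H24.SS

open Polynomial Module

variable {G : Type} [CommGroup G] {E : Type} [Field E] {V : Type} [AddCommGroup V]
  [Module E V] [FiniteDimensional E V] {W : Type} [AddCommGroup W] [Module E W]

/-- A place of good reduction of the covering of fibred surfaces: the number `q` of elements of the
residue field, the reduction `X` of the curve with the Euler polynomials of the sheaf (`S`), the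
covering `C` of `X`, ramified only in `T`, the L-function `N / D`, and the Frobenius `Φ` at the
place, which acts on the cohomology group `V` of the geometric fibre. -/
structure Reduct (p : ℕ) (ρ : G →* Module.End E V) (B : LinearMap.BilinForm E V) where
  q : ℕ
  prime : ¬ p ∣ q
  S : Sheaf
  C : Cover S G
  N : ℤ[X]
  D : ℤ[X]
  isL : S.IsL Set.univ N D
  T : Finset S.Pt
  outside : C.Outside T
  pos : ∀ v ∈ T, 0 < S.deg v
  Φ : Module.End E V
  isH1 : IsH1 C q Φ ρ B

variable {p : ℕ} {ρ : G →* Module.End E V} {B : LinearMap.BilinForm E V}

/-- `red_χ` at the place `w`. -/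
noncomputable def Reduct.red (w : Reduct p ρ B) [Fact p.Prime] (χ : G →* E) : (ZMod p)[X] :=
  w.C.redL p w.T w.N w.D χ

/-- The order of the zero `1 / q` of `red_χ` at the place `w`. -/
noncomputable def Reduct.order (w : Reduct p ρ B) [Fact p.Prime] (χ : G →* E) : ℕ :=
  SS.order p w.q (w.red χ)

/-- The sign at the place `w`: `1` if `p = 2`, `χ² = 1` and the determinant of Frobenius on the part of
`χ` is `-q ^ dim`, and `0` otherwise. -/
noncomputable def Reduct.sign (w : Reduct p ρ B) (χ : G →* E) : ℕ :=
  SS.sign w.isH1.comm p w.q χ

/-- The elements on which the operators `F w` are multiplication by `q w`, for all `w` in `P`; with the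
Frobenius operators at a set of places of density one these are the Tate classes. -/
def classes {I : Type 1} (P : Set I) (F : I → Module.End E W) (q : I → ℕ) : Submodule E W where
  carrier := {x | ∀ w ∈ P, F w x = (q w : E) • x}
  add_mem' := by
    intro x y hx hy w hw
    rw [map_add, hx w hw, hy w hw, smul_add]
  zero_mem' := by
    intro w _
    rw [map_zero, smul_zero]
  smul_mem' := by
    intro c x hx w hw
    rw [map_smul, hx w hw, smul_comm]

/-- The Tate classes in `V`. -/
def tate (P : Set (Reduct p ρ B)) : Submodule E V :=
  classes P (fun w : Reduct p ρ B => w.Φ) (fun w : Reduct p ρ B => w.q)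

/-- `W` is the second cohomology group of the surface fibred over `X'`, with the Frobenius operators
`Ψ w`: the direct sum of `V` and of the space `F` of the classes of the components of the fibres and of
a divisor of positive degree on the fibres. -/
structure IsSurface (P : Set (Reduct p ρ B)) (Ψ : Reduct p ρ B → Module.End E W) (i : V →ₗ[E] W)
    (F : Submodule E W) : Prop where
  injective : Function.Injective i
  sum : IsCompl (LinearMap.range i) F
  frob : ∀ w ∈ P, ∀ x, Ψ w (i x) = i (w.Φ x)
  stable : ∀ w ∈ P, ∀ x ∈ F, Ψ w x ∈ F

end Pool.Agent.J6H24.SS
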